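import Mathlib

namespace Pool.Agent.Results.MP_bf7c2b_nt.FourReal

open Polynomial

/-- The complex conjugates of `α` (roots of its minimal polynomial over `ℚ`). -/
noncomputable def conjs (α : ℂ) : Multiset ℂ := (minpoly ℚ α).aroots ℂ

open Classical in
/-- The number of real conjugates. -/
noncomputable def nreal (α : ℂ) : ℕ := ((conjs α).filter fun z => z.im = 0).card

open Classical in
/-- The absolute square size: a real conjugate contributes its square, a pair of non-real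
conjugates contributes its squared modulus once (half for each member). -/
noncomputable def sqSize (α : ℂ) : ℝ :=
  ((conjs α).map fun z => if z.im = 0 then ‖z‖ ^ 2 else ‖z‖ ^ 2 / 2).sum

/-- first divided difference of powers -/
noncomputable def P (a b : ℂ) : ℕ → ℂ
  | 0 => 0
  | k + 1 => a * P a b k + b ^ k

/-- second divided difference of powers -/
noncomputable def Q (a b c : ℂ) : ℕ → ℂ
  | 0 => 0
  | k + 1 => a * Q a b c k + P b c k

lemma P_eq (a b : ℂ) (k : ℕ) : a ^ k - b ^ k = (a - b) * P a b k := by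
  induction k with
  | zero => simp [P]
  | succ k ih => rw [P]; linear_combination a * ih

lemma Q_eq (a b c : ℂ) (k : ℕ) : P a b k - P a c k = (b - c) * Q a b c k := by
  induction k with
  | zero => simp [P, Q]
  | succ k ih => rw [P, P, Q]; linear_combination a * ih + P_eq b c k

lemma P_le {a b : ℂ} (ha : ‖a‖ ≤ 3 / 5) (hb : ‖b‖ ≤ 3 / 5) (k : ℕ) :
    ‖P a b k‖ ≤ 2 * k * (3 / 5) ^ k := by
  induction k with
  | zero => simp [P]
  | succ k ih =>
    rw [P]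
    have h1 := norm_add_le (a * P a b k) (b ^ k)
    rw [norm_mul, norm_pow] at h1
    have h2 : ‖b‖ ^ k ≤ (3 / 5) ^ k := pow_le_pow_left₀ (norm_nonneg _) hb k
    have h3 : ‖a‖ * ‖P a b k‖ ≤ 3 / 5 * (2 * k * (3 / 5) ^ k) :=
      mul_le_mul ha ih (norm_nonneg _) (by norm_num)
    have h4 : (0 : ℝ) < (3 / 5) ^ k := by positivity
    push_cast; rw [pow_succ]; nlinarith

lemma Q_le {a b c : ℂ} (ha : ‖a‖ ≤ 3 / 5) (hb : ‖b‖ ≤ 3 / 5) (hc : ‖c‖ ≤ 3 / 5) (k : ℕ) :
    ‖Q a b c k‖ ≤ 2 * k ^ 2 * (3 / 5) ^ k := by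
  induction k with
  | zero => simp [Q]
  | succ k ih =>
    rw [Q]
    have h1 := norm_add_le (a * Q a b c k) (P b c k)
    rw [norm_mul] at h1
    have h2 := P_le hb hc k
    have h3 : ‖a‖ * ‖Q a b c k‖ ≤ 3 / 5 * (2 * k ^ 2 * (3 / 5) ^ k) :=
      mul_le_mul ha ih (norm_nonneg _) (by norm_num)
    have h4 : (0 : ℝ) < (3 / 5) ^ k := by positivity
    have h5 : (0 : ℝ) ≤ k * (3 / 5) ^ k := by positivity
    push_cast; rw [pow_succ (3 / 5 : ℝ)]; nlinarith

/-- the equation in `y = x²` -/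
def E (m : ℕ) (y : ℂ) : Prop := y ^ (m + 1) - y ^ m + 4 * y ^ 3 - 3 * y + 1 = 0

lemma three {m : ℕ} (hm : ((m : ℝ) + 1) ^ 2 * (3 / 5) ^ m < 1) {a b c : ℂ} (ea : E m a) (eb : E m b)
    (ec : E m c) (ha : ‖2 * a - 1‖ ≤ 1 / 5) (hb : ‖2 * b - 1‖ ≤ 1 / 5) (hc : ‖2 * c - 1‖ ≤ 1 / 5)
    (ab : a ≠ b) (ac : a ≠ c) (bc : b ≠ c) : False := by
  have hn : ∀ z : ℂ, ‖2 * z - 1‖ ≤ 1 / 5 → ‖z‖ ≤ 3 / 5 := fun z hz => by
    have := norm_add_le (2 * z - 1) 1
    simp at this; linarith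
  unfold E at ea eb ec
  have h1 : P a b (m + 1) - P a b m + 4 * (a ^ 2 + a * b + b ^ 2) - 3 = 0 := by
    apply mul_left_cancel₀ (sub_ne_zero.2 ab)
    linear_combination ea - eb - P_eq a b (m + 1) + P_eq a b m
  have h2 : P a c (m + 1) - P a c m + 4 * (a ^ 2 + a * c + c ^ 2) - 3 = 0 := by
    apply mul_left_cancel₀ (sub_ne_zero.2 ac)
    linear_combination ea - ec - P_eq a c (m + 1) + P_eq a c m
  have h3 : Q a b c (m + 1) - Q a b c m + 4 * (a + b + c) = 0 := by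
    apply mul_left_cancel₀ (sub_ne_zero.2 bc)
    linear_combination h1 - h2 - Q_eq a b c (m + 1) + Q_eq a b c m
  have h4 : (6 : ℂ) = Q a b c m - Q a b c (m + 1) - 2 * (2 * a - 1) - 2 * (2 * b - 1)
      - 2 * (2 * c - 1) := by linear_combination h3
  have q1 := Q_le (hn a ha) (hn b hb) (hn c hc) m
  have q2 := Q_le (hn a ha) (hn b hb) (hn c hc) (m + 1)
  have h5 : ‖(6 : ℂ)‖ ≤ ‖Q a b c m‖ + ‖Q a b c (m + 1)‖ + ‖2 * (2 * a - 1)‖ + ‖2 * (2 * b - 1)‖
      + ‖2 * (2 * c - 1)‖ := by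
    rw [h4]
    refine (norm_sub_le _ _).trans (add_le_add_left ?_ _)
    refine (norm_sub_le _ _).trans (add_le_add_left ?_ _)
    refine (norm_sub_le _ _).trans (add_le_add_left ?_ _)
    exact norm_sub_le _ _
  simp only [norm_mul, Complex.norm_ofNat] at h5
  have h6 : (0 : ℝ) < (3 / 5) ^ m := by positivity
  have h7 : (0 : ℝ) ≤ m * (3 / 5) ^ m := by positivity
  push_cast at q2
  rw [pow_succ (3 / 5 : ℝ)] at q2
  nlinarith

lemma E_real {m : ℕ} {y : ℝ} : E m y ↔ y ^ (m + 1) - y ^ m + 4 * y ^ 3 - 3 * y + 1 = 0 := by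
  unfold E; norm_cast

lemma pow_bd (m : ℕ) {y : ℝ} (h0 : 0 ≤ y) (h1 : y ≤ 1) : m * (y ^ m * (1 - y)) ≤ 1 := by
  have : ∀ k : ℕ, k * (y ^ k * (1 - y)) ≤ 1 - y ^ k := by
    intro k
    induction k with
    | zero => simp
    | succ k ih =>
      have h2 : 0 ≤ y ^ k * (1 - y) := mul_nonneg (pow_nonneg h0 k) (by linarith)
      have h3 : 0 ≤ (k + 1 : ℝ) * (y ^ k * (1 - y)) * (1 - y) :=
        mul_nonneg (mul_nonneg (by positivity) h2) (by linarith)
      push_cast; rw [pow_succ]; nlinarith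
  linarith [this m, pow_nonneg h0 m]

lemma real_near {m : ℕ} {y : ℝ} (h0 : 0 ≤ y) (e : E m y) : m * (2 * y - 1) ^ 2 ≤ 1 := by
  rw [E_real] at e
  have h2 : 0 ≤ y ^ m := pow_nonneg h0 m
  rcases le_total y 1 with h | h
  · have h3 := pow_bd m h0 h
    have h4 : (2 * y - 1) ^ 2 ≤ y ^ m * (1 - y) := by
      rw [pow_succ] at e; nlinarith [mul_nonneg h0 (sq_nonneg (2 * y - 1))]
    nlinarith [mul_le_mul_of_nonneg_left h4 (Nat.cast_nonneg (α := ℝ) m)]
  · exfalso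
    rw [pow_succ] at e
    nlinarith [mul_nonneg h2 (sub_nonneg.2 h), mul_nonneg h0 (sq_nonneg (2 * y - 1))]

lemma two_roots {m : ℕ} (hm : 0 < m) : ∃ a b : ℝ, 0 < a ∧ a < b ∧ E m a ∧ E m b := by
  have hc : Continuous fun y : ℝ => y ^ (m + 1) - y ^ m + 4 * y ^ 3 - 3 * y + 1 := by fun_prop
  have h1 : (1 / 2 : ℝ) ^ (m + 1) - (1 / 2) ^ m + 4 * (1 / 2) ^ 3 - 3 * (1 / 2) + 1 < 0 := by
    rw [pow_succ]; have : (0 : ℝ) < (1 / 2) ^ m := by positivity
    linarith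
  have h0 : (0 : ℝ) ^ m ≤ 1 := pow_le_one₀ le_rfl zero_le_one
  obtain ⟨b, hb, eb⟩ := intermediate_value_Ioo (show (1 / 2 : ℝ) ≤ 1 by norm_num) hc.continuousOn
    (show (0 : ℝ) ∈ Set.Ioo _ _ from ⟨h1, by norm_num⟩)
  obtain ⟨a, ha, ea⟩ := intermediate_value_Ioo' (show (0 : ℝ) ≤ 1 / 2 by norm_num) hc.continuousOn
    (show (0 : ℝ) ∈ Set.Ioo _ _ from ⟨h1, by simp [hm.ne']⟩)
  exact ⟨a, b, ha.1, ha.2.trans hb.1, E_real.2 ea, E_real.2 eb⟩

lemma far {m : ℕ} (hm : 6 ≤ m) {y : ℂ} (e : E m y) (hy : 1 / 5 < ‖2 * y - 1‖) :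
    y ≠ 0 ∧ m * |Real.log ‖y‖| ≤ 2 * Real.log (50 * m) := by
  have hm' : (6 : ℝ) ≤ m := by exact_mod_cast hm
  have hy0 : y ≠ 0 := by
    rintro rfl
    simp [E, show m ≠ 0 by omega] at e
  refine ⟨hy0, ?_⟩
  have e1 : ‖y‖ ^ m * ‖y - 1‖ = ‖2 * y - 1‖ ^ 2 * ‖y + 1‖ := by
    rw [← norm_pow, ← norm_pow, ← norm_mul, ← norm_mul, ← norm_neg]
    congr 1; unfold E at e; linear_combination -e
  have hp : 0 < ‖y‖ := norm_pos_iff.2 hy0
  have hl : 1 ≤ Real.log (50 * m) := by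
    rw [Real.le_log_iff_exp_le (by positivity)]
    linarith [Real.exp_one_lt_d9]
  have n1 : ‖y - 1‖ ≤ ‖y‖ + 1 := by simpa using norm_sub_le y 1
  have n2 : ‖y + 1‖ ≤ ‖y‖ + 1 := by simpa using norm_add_le y 1
  have n3 : ‖2 * y - 1‖ ≤ 2 * ‖y‖ + 1 := by simpa using norm_sub_le (2 * y) 1
  have n4 : ‖y‖ ≤ ‖y - 1‖ + 1 := by simpa using norm_add_le (y - 1) 1
  have n5 : 1 ≤ ‖y + 1‖ + ‖y‖ := by simpa using norm_sub_le (y + 1) y
  rcases le_total 1 ‖y‖ with h | h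
  · rw [abs_of_nonneg (Real.log_nonneg h)]
    by_cases h1 : m * ‖y - 1‖ ≤ 1
    · have := Real.log_le_sub_one_of_pos hp
      nlinarith
    · push Not at h1
      have h2 : ‖y‖ ^ m ≤ 50 * m * ‖y‖ ^ 3 := by
        have a1 : ‖2 * y - 1‖ ^ 2 ≤ (3 * ‖y‖) ^ 2 := pow_le_pow_left₀ (norm_nonneg _) (by linarith) 2
        have a2 : ‖2 * y - 1‖ ^ 2 * ‖y + 1‖ ≤ (3 * ‖y‖) ^ 2 * (2 * ‖y‖) :=
          mul_le_mul a1 (by linarith) (norm_nonneg _) (by positivity)
        have a3 : ‖y‖ ^ m * 1 ≤ ‖y‖ ^ m * (m * ‖y - 1‖) :=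
          mul_le_mul_of_nonneg_left h1.le (by positivity)
        have a4 : (0 : ℝ) ≤ m * ‖y‖ ^ 3 := by positivity
        nlinarith
      have h3 := Real.log_le_log (by positivity) h2
      rw [Real.log_mul (by positivity) (by positivity), Real.log_pow, Real.log_pow] at h3
      have := Real.log_nonneg h
      push_cast at h3
      nlinarith
  · rw [abs_of_nonpos (Real.log_nonpos hp.le h)]
    by_cases h1 : m * ‖y + 1‖ ≤ 1
    · have a1 := Real.one_sub_inv_le_log_of_pos hp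
      have a2 : 1 / 2 ≤ ‖y‖ := by nlinarith [norm_nonneg (y + 1)]
      have a3 : ‖y‖⁻¹ ≤ 1 + 2 * (1 - ‖y‖) := by
        rw [inv_le_iff_one_le_mul₀ hp]; nlinarith
      nlinarith
    · push Not at h1
      have h2 : 1 ≤ 50 * m * ‖y‖ ^ m := by
        have a1 : (1 / 5) ^ 2 ≤ ‖2 * y - 1‖ ^ 2 := pow_le_pow_left₀ (by norm_num) hy.le 2
        have a2 : (1 / 5) ^ 2 * 1 ≤ ‖2 * y - 1‖ ^ 2 * (m * ‖y + 1‖) :=
          mul_le_mul a1 h1.le zero_le_one (by positivity)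
        have a3 : m * ‖y‖ ^ m * ‖y - 1‖ ≤ m * ‖y‖ ^ m * 2 :=
          mul_le_mul_of_nonneg_left (by linarith) (by positivity)
        nlinarith
      have h3 := Real.log_le_log (by positivity) h2
      rw [Real.log_mul (by positivity) (by positivity), Real.log_pow, Real.log_one] at h3
      linarith

/-- the polynomial -/
noncomputable def f (m : ℕ) : ℤ[X] := X ^ (2 * m + 2) + (-X ^ (2 * m) + 4 * X ^ 6 - 3 * X ^ 2 + 1)

lemma f_deg {m : ℕ} (hm : 3 ≤ m) :
    (-X ^ (2 * m) + 4 * X ^ 6 - 3 * X ^ 2 + 1 : ℤ[X]).degree < (2 * m + 2 : ℕ) := by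
  refine lt_of_le_of_lt (b := ((2 * m : ℕ) : WithBot ℕ)) (degree_le_of_natDegree_le ?_)
    (by exact_mod_cast by omega)
  compute_degree <;> simp <;> omega

lemma f_monic {m : ℕ} (hm : 3 ≤ m) : (f m).Monic := monic_X_pow_add (f_deg hm)

lemma f_nat {m : ℕ} (hm : 3 ≤ m) : (f m).natDegree = 2 * m + 2 := by
  rw [f, natDegree_add_eq_left_of_degree_lt (by rw [degree_X_pow]; exact f_deg hm), natDegree_X_pow]

lemma f_irr {k : ℕ} (hm : 3 ≤ 2 ^ k) : Irreducible (f (2 ^ k)) := by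
  refine generalizedEisenstein (K := ZMod 2) (q := X - C 1) (p := 2 * 2 ^ k + 2) ?_
    (monic_X_sub_C 1) (f_monic hm).isPrimitive (by rw [f_nat hm]; omega)
    (by rw [(f_monic hm).leadingCoeff]; simp) ?_ ?_
  · rw [Polynomial.map_sub, map_X, map_C]; exact irreducible_X_sub_C _
  · rw [(f_monic hm).leadingCoeff]
    have h1 : ((X : (ZMod 2)[X]) - 1) ^ (2 * 2 ^ k) = X ^ (2 * 2 ^ k) - 1 := by
      rw [← pow_succ', sub_pow_char_pow, one_pow]
    have h2 : (2 : (ZMod 2)[X]) = 0 := CharTwo.two_eq_zero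
    simp only [f, Polynomial.map_add, Polynomial.map_sub, Polynomial.map_neg, Polynomial.map_mul,
      Polynomial.map_pow, map_X, Polynomial.map_one, Polynomial.map_ofNat, map_one, one_mul]
    rw [pow_add _ (2 * 2 ^ k), pow_add _ (2 * 2 ^ k), h1]
    linear_combination (2 * X ^ 6 - X ^ 2 + 1 - X - X ^ (2 * 2 ^ k) + X * X ^ (2 * 2 ^ k)) * h2
  · rw [modByMonic_X_sub_C_eq_C_eval, map_C, Ne, C_eq_zero, Ideal.Quotient.eq_zero_iff_mem]
    have h1 : RingHom.ker (algebraMap ℤ (ZMod 2)) = Ideal.span {2} := ZMod.ker_intCastRingHom 2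
    rw [h1, Ideal.span_singleton_pow, Ideal.mem_span_singleton]
    simp [f]

lemma real_bd {m : ℕ} (hm : 4 ≤ m) {y : ℝ} (h0 : 0 < y) (e : E m y) :
    y - Real.log y / 2 ≤ 1 / 2 + Real.log 2 / 2 + 1 / m := by
  have h1 := real_near h0.le e
  have hm' : (4 : ℝ) ≤ m := by exact_mod_cast hm
  have h2 : (2 * y - 1) ^ 2 ≤ 1 / m := by rw [le_div_iff₀ (by linarith)]; linarith
  have h3 : (2 * y - 1) ^ 2 ≤ (1 / 2) ^ 2 := by nlinarith [sq_nonneg (2 * y - 1)]
  have h4 := abs_le.1 (abs_le_of_sq_le_sq' h3 (by norm_num) |> abs_le.2)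
  have h5 := Real.one_sub_inv_le_log_of_pos (show 0 < 2 * y by linarith)
  rw [Real.log_mul (by norm_num) h0.ne'] at h5
  have h6 : (2 * y)⁻¹ ≤ 1 - (2 * y - 1) + 2 * (2 * y - 1) ^ 2 := by
    rw [inv_le_iff_one_le_mul₀ (by linarith)]
    nlinarith [mul_nonneg (sq_nonneg (2 * y - 1)) (show 0 ≤ 4 * y - 1 by linarith)]
  linarith

lemma good (ε : ℝ) (hε : 0 < ε) : ∃ k : ℕ, 25 ≤ 2 ^ k ∧
    (((2 ^ k : ℕ) : ℝ) + 1) ^ 2 * (3 / 5) ^ (2 ^ k) < 1 ∧
    2 * Real.log (50 * (2 ^ k : ℕ)) / (2 ^ k : ℕ) ≤ 1 ∧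
    4 / ((2 ^ k : ℕ) : ℝ) + (2 ^ k : ℕ) * (2 * Real.log (50 * (2 ^ k : ℕ)) / (2 ^ k : ℕ)) ^ 2 < ε := by
  have t0 : Filter.Tendsto (fun m : ℕ => (50 * m : ℝ)) Filter.atTop Filter.atTop :=
    tendsto_natCast_atTop_atTop.const_mul_atTop (by norm_num)
  have t1 : Filter.Tendsto (fun m : ℕ => ((m : ℝ) + 1) ^ 2 * (3 / 5) ^ m) Filter.atTop (nhds 0) := by
    have h := (tendsto_pow_const_mul_const_pow_of_abs_lt_one 2 (r := 3 / 5)
      (by rw [abs_of_pos] <;> norm_num)).comp (Filter.tendsto_add_atTop_nat 1)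
    have h2 := h.const_mul (5 / 3)
    rw [mul_zero] at h2
    refine h2.congr fun m => ?_
    simp only [Function.comp]; push_cast; ring
  have t2 := (Real.tendsto_pow_log_div_mul_add_atTop (1 / 100) 0 1 (by norm_num)).comp t0
  have t3 := (Real.tendsto_pow_log_div_mul_add_atTop (1 / 200) 0 2 (by norm_num)).comp t0
  have t4 := (tendsto_const_div_atTop_nhds_zero_nat (4 : ℝ)).add t3
  rw [add_zero] at t4
  have ev : ∀ᶠ m : ℕ in Filter.atTop, 25 ≤ m ∧ ((m : ℝ) + 1) ^ 2 * (3 / 5) ^ m < 1 ∧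
      2 * Real.log (50 * m) / m ≤ 1 ∧ 4 / (m : ℝ) + m * (2 * Real.log (50 * m) / m) ^ 2 < ε := by
    filter_upwards [Filter.eventually_ge_atTop 25, t1.eventually (gt_mem_nhds one_pos),
      t2.eventually (gt_mem_nhds one_pos), t4.eventually (gt_mem_nhds hε)] with m a b c d
    have hm : (0 : ℝ) < m := by exact_mod_cast by omega
    simp only [Function.comp] at c d
    refine ⟨a, b, le_trans (le_of_eq ?_) c.le, lt_of_le_of_lt (le_of_eq ?_) d⟩ <;> field_simp <;> ring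
  exact ((tendsto_pow_atTop_atTop_of_one_lt (one_lt_two (α := ℕ))).eventually ev).exists

theorem result : ∃ s : ℕ, 1 ≤ s ∧ s ≠ 2 ∧ ∀ ε : ℝ, 0 < ε → ∃ α : ℂ, IsIntegral ℤ α ∧ α ≠ 0 ∧
    2 ≤ (minpoly ℚ α).natDegree ∧ nreal α = s ∧
    sqSize α < (minpoly ℚ α).natDegree * (2 : ℝ) ^ ((s : ℝ) / (minpoly ℚ α).natDegree - 1) + ε := by
  classical
  refine ⟨4, by norm_num, by norm_num, fun ε hε => ?_⟩
  obtain ⟨k, h25, hA, hB, hC⟩ := good ε hε
  have hirr := f_irr (k := k) (by omega)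
  generalize 2 ^ k = m at *
  have hm3 : 3 ≤ m := by omega
  have hm' : (25 : ℝ) ≤ m := by exact_mod_cast h25
  set g := (f m).map (algebraMap ℤ ℚ) with hg
  have gm : g.Monic := (f_monic hm3).map _
  have gi : Irreducible g := ((f_monic hm3).irreducible_iff_irreducible_map_fraction_map).1 hirr
  have gd : g.natDegree = 2 * m + 2 := by rw [hg, (f_monic hm3).natDegree_map, f_nat hm3]
  have ge : ∀ z : ℂ, aeval z g = 0 ↔ E m (z ^ 2) := by
    intro z
    rw [hg, aeval_map_algebraMap, E]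
    simp only [f, map_add, map_sub, map_neg, map_mul, map_pow, aeval_X, map_one, map_ofNat]
    constructor <;> intro h <;> linear_combination h
  obtain ⟨a, b, ha, hab, ea, eb⟩ := two_roots (m := m) (by omega)
  have hb : 0 < b := ha.trans hab
  have near : ∀ y : ℝ, 0 ≤ y → E m y → ‖2 * (y : ℂ) - 1‖ ≤ 1 / 5 := by
    intro y hy e
    have h1 := real_near hy e
    have h2 : (2 * y - 1) ^ 2 ≤ (1 / 5) ^ 2 := by nlinarith [sq_nonneg (2 * y - 1)]
    have := abs_le.2 (abs_le_of_sq_le_sq' h2 (by norm_num))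
    rw [← Real.norm_eq_abs, ← Complex.norm_real] at this
    push_cast at this; exact this
  have two : ∀ y : ℂ, E m y → ‖2 * y - 1‖ ≤ 1 / 5 → y = a ∨ y = b := by
    intro y e hy
    by_contra! h
    exact three hA e ea eb hy (near a ha.le ea) (near b hb.le eb) h.1 h.2
      (by exact_mod_cast hab.ne)
  have sa : ((√a : ℝ) : ℂ) ^ 2 = a := by exact_mod_cast Real.sq_sqrt ha.le
  have sb : ((√b : ℝ) : ℂ) ^ 2 = b := by exact_mod_cast Real.sq_sqrt hb.le
  have pa := Real.sqrt_pos.2 ha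
  have pab := Real.sqrt_lt_sqrt ha.le hab
  let α : ℂ := (√a : ℝ)
  have hα : aeval α g = 0 := (ge α).2 (by rw [sa]; exact ea)
  have hmin : minpoly ℚ α = g := (minpoly.eq_of_irreducible_of_monic gi hα gm).symm
  have mem : ∀ z, z ∈ g.aroots ℂ ↔ E m (z ^ 2) := fun z => by
    rw [mem_aroots, ge]; exact ⟨fun h => h.2, fun h => ⟨gm.ne_zero, h⟩⟩
  have nd : (g.aroots ℂ).Nodup := nodup_roots gi.separable.map
  have cd : (g.aroots ℂ).card = 2 * m + 2 := by rw [IsAlgClosed.card_aroots_eq_natDegree, gd]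
  have c4 : ((g.aroots ℂ).filter fun z => z.im = 0).card = 4 := by
    have : ((g.aroots ℂ).filter fun z => z.im = 0) =
        ({((√a : ℝ) : ℂ), ((-√a : ℝ) : ℂ), ((√b : ℝ) : ℂ), ((-√b : ℝ) : ℂ)} : Multiset ℂ) := by
      rw [Multiset.Nodup.ext (nd.filter _)]
      · intro z
        simp only [Multiset.mem_filter, mem, Multiset.insert_eq_cons, Multiset.mem_cons,
          Multiset.mem_singleton]
        constructor
        · rintro ⟨e, hz⟩
          have h1 : z = (z.re : ℝ) := Complex.ext rfl hz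
          have h2 : z ^ 2 = ((z.re ^ 2 : ℝ) : ℂ) := by rw [h1]; simp
          rw [h2] at e
          rcases two _ e (near _ (sq_nonneg _) e) with h | h
          · rw [← h2, ← sa, sq_eq_sq_iff_eq_or_eq_neg] at h; push_cast; tauto
          · rw [← h2, ← sb, sq_eq_sq_iff_eq_or_eq_neg] at h; push_cast; tauto
        · rintro (rfl | rfl | rfl | rfl) <;> refine ⟨?_, Complex.ofReal_im _⟩ <;> push_cast <;>
            simp only [neg_sq, sa, sb, ea, eb]
      · simp only [Multiset.insert_eq_cons, Multiset.nodup_cons, Multiset.mem_cons,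
          Multiset.mem_singleton, Complex.ofReal_inj, Multiset.nodup_singleton, and_true]
        refine ⟨?_, ?_, ?_⟩ <;> intro h <;> (try rcases h with h | h | h) <;>
          (try rcases h with h | h) <;> linarith
    rw [this]; rfl
  have nz : ∀ z ∈ g.aroots ℂ, z ≠ 0 := by
    rintro z hz rfl
    rw [mem] at hz
    simp [E, show m ≠ 0 by omega] at hz
  have hsum : ((g.aroots ℂ).map fun z => Real.log ‖z‖).sum = 0 := by
    have h1 := (IsAlgClosed.splits (g.map (algebraMap ℚ ℂ))).coeff_zero_eq_prod_roots_of_monic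
      (gm.map _)
    have h2 : (g.map (algebraMap ℚ ℂ)).coeff 0 = 1 := by
      rw [coeff_zero_eq_eval_zero, eval_map_algebraMap, hg, aeval_map_algebraMap]
      simp [f, show m ≠ 0 by omega]
    have h3 : ((g.aroots ℂ).map fun z => ‖z‖).prod = 1 := by
      have := congrArg (normHom (α := ℂ)) h1
      rw [h2, map_mul, map_multiset_prod] at this
      simpa using this.symm
    have h4 := Real.log_multiset_prod (s := (g.aroots ℂ).map fun z => ‖z‖) (by
      intro x hx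
      obtain ⟨z, hz, rfl⟩ := Multiset.mem_map.1 hx
      exact norm_ne_zero_iff.2 (nz z hz))
    rw [h3, Real.log_one, Multiset.map_map] at h4
    exact h4.symm
  refine ⟨α, ⟨f m, f_monic hm3, ?_⟩, by simpa [α] using pa.ne', by rw [hmin, gd]; omega,
    by rw [nreal, conjs, hmin]; convert c4, ?_⟩
  · rw [hg, aeval_map_algebraMap] at hα; exact hα
  rw [sqSize, conjs, hmin, gd]
  set δ := 2 * Real.log (50 * m) / m
  set R := g.aroots ℂ
  let φ : ℂ → ℝ := fun z => (if z.im = 0 then ‖z‖ ^ 2 else ‖z‖ ^ 2 / 2) - Real.log ‖z‖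
  have e1 : (R.map fun z => if z.im = 0 then ‖z‖ ^ 2 else ‖z‖ ^ 2 / 2).sum = (R.map φ).sum := by
    simp only [φ, Multiset.sum_map_sub, hsum, sub_zero]
  have e2 : (R.map φ).sum = ((R.filter fun z => z.im = 0).map φ).sum +
      ((R.filter fun z => ¬ z.im = 0).map φ).sum := by
    rw [← Multiset.sum_add, ← Multiset.map_add, Multiset.filter_add_not]
  have c5 : (R.filter fun z => ¬ z.im = 0).card = 2 * m - 2 := by
    have := congrArg Multiset.card (Multiset.filter_add_not (fun z : ℂ => z.im = 0) R)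
    rw [Multiset.card_add, c4, cd] at this
    omega
  have b1 := Multiset.sum_le_card_nsmul ((R.filter fun z => z.im = 0).map φ)
    (1 / 2 + Real.log 2 / 2 + 1 / m) (by
      intro x hx
      obtain ⟨z, hz, rfl⟩ := Multiset.mem_map.1 hx
      obtain ⟨hz, hz'⟩ := Multiset.mem_filter.1 hz
      have h0 := nz z hz
      have h1 : z = (z.re : ℝ) := Complex.ext rfl hz'
      have h2 : z ^ 2 = ((‖z‖ ^ 2 : ℝ) : ℂ) := by rw [h1]; simp
      have e := (mem z).1 hz
      rw [h2] at e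
      have := real_bd (by omega) (by positivity) e
      rw [Real.log_pow] at this
      simp only [φ, if_pos hz']
      push_cast at this; linarith)
  have b2 := Multiset.sum_le_card_nsmul ((R.filter fun z => ¬ z.im = 0).map φ)
    ((1 + δ ^ 2) / 2) (by
      intro x hx
      obtain ⟨z, hz, rfl⟩ := Multiset.mem_map.1 hx
      obtain ⟨hz, hz'⟩ := Multiset.mem_filter.1 hz
      have e := (mem z).1 hz
      have h1 : 1 / 5 < ‖2 * z ^ 2 - 1‖ := by
        by_contra! h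
        rcases two _ e h with h | h
        · rw [← sa, sq_eq_sq_iff_eq_or_eq_neg] at h
          rcases h with rfl | rfl <;> simp at hz'
        · rw [← sb, sq_eq_sq_iff_eq_or_eq_neg] at h
          rcases h with rfl | rfl <;> simp at hz'
      obtain ⟨h2, h3⟩ := far (by omega) e h1
      have h4 : |Real.log ‖z ^ 2‖| ≤ δ := by rw [le_div_iff₀ (by linarith)]; linarith
      have h5 := (abs_le.1 (Real.abs_exp_sub_one_sub_id_le (h4.trans hB))).2
      rw [Real.exp_log (norm_pos_iff.2 h2)] at h5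
      have h6 : Real.log ‖z ^ 2‖ ^ 2 ≤ δ ^ 2 := by
        rw [← sq_abs]; exact pow_le_pow_left₀ (abs_nonneg _) h4 2
      have h7 : Real.log ‖z ^ 2‖ = 2 * Real.log ‖z‖ := by rw [norm_pow, Real.log_pow]; norm_num
      simp only [φ, if_neg hz']
      rw [← norm_pow]; linarith)
  rw [Multiset.card_map, c4] at b1
  rw [Multiset.card_map, c5] at b2
  have e3 : ((2 * m - 2 : ℕ) : ℝ) = 2 * m - 2 := by
    rw [Nat.cast_sub (by omega)]; push_cast; ring
  simp only [nsmul_eq_mul, e3] at b1 b2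
  have b3 : (m + 1 : ℝ) + 2 * Real.log 2 ≤
      ((2 * m + 2 : ℕ) : ℝ) * (2 : ℝ) ^ (((4 : ℕ) : ℝ) / ((2 * m + 2 : ℕ) : ℝ) - 1) := by
    rw [Real.rpow_sub_one (by norm_num), Real.rpow_def_of_pos (by norm_num)]
    have := Real.add_one_le_exp (Real.log 2 * (((4 : ℕ) : ℝ) / ((2 * m + 2 : ℕ) : ℝ)))
    push_cast at this ⊢
    have h1 : (m + 1 : ℝ) + 2 * Real.log 2 = (2 * m + 2) * ((Real.log 2 * (4 / (2 * m + 2)) + 1) / 2) := by
      field_simp; ring
    rw [h1]; gcongr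
  have e4 : (4 : ℝ) * (1 / m) = 4 / m := by ring
  convert_to (R.map fun z => if z.im = 0 then ‖z‖ ^ 2 else ‖z‖ ^ 2 / 2).sum < _
  rw [e1, e2]
  push_cast at b1
  nlinarith [sq_nonneg δ]

end Pool.Agent.Results.MP_bf7c2b_nt.FourReal
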